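import Pool.Agent.N204.HR.Stm
import Pool.Agent.Y121.AH.ZeroOne

/-!
# Project HR, task NS: the normalised Frobenius (helper222 for helper204)
-/

set_option autoImplicit false
set_option linter.unusedSectionVars false

open CategoryTheory AlgebraicGeometry TensorProduct

universe u

namespace Pool.Agent.N222.HR

open Module
open Pool.Agent.H914 Pool.Agent.H914.VarClass Pool.Agent.H914.VarClass.Obj
  Pool.Agent.H914.WeilCohomology
open Pool.Agent.Y133.Half (pw pfst psnd wb)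
open Pool.Agent.Y121.AH (HodgeTheory CW em IsHodge em_gr gr_le_iSup)
open Pool.Agent.N996.BP (kp IsCoordinateMap IsPHS)
open Pool.Agent.N996.BP.Geo (cc lop tauT Fx)
open Pool.Agent.N204.HR

section Gen

variable {k : Type u} [Field k] {𝒱 : VarClass k} {ops : CycleOps 𝒱}
  {W : WeilCohomology.{u, 0} ops} {Y Z : 𝒱.Obj}

lemma sc_mul (c : W.K) (x y : W.H Y) : scal (W.isInternal Y) (fun i => c ^ i) (x * y) =
    scal (W.isInternal Y) (fun i => c ^ i) x * scal (W.isInternal Y) (fun i => c ^ i) y := by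
  refine gr_induction (W.isInternal Y) (p := fun x =>
    scal (W.isInternal Y) (fun i => c ^ i) (x * y) = scal (W.isInternal Y) (fun i => c ^ i) x *
      scal (W.isInternal Y) (fun i => c ^ i) y) ?_ ?_ x
  · intro i x hx
    refine gr_induction (W.isInternal Y) (p := fun y =>
      scal (W.isInternal Y) (fun i => c ^ i) (x * y) = scal (W.isInternal Y) (fun i => c ^ i) x *
        scal (W.isInternal Y) (fun i => c ^ i) y) ?_ ?_ y
    · intro j y hy
      rw [scal_apply _ _ hx, scal_apply _ _ hy, scal_apply _ _ (W.mul_mem hx hy),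
        smul_mul_smul_comm, pow_add]
    · intro a b ha hb
      rw [mul_add, map_add, ha, hb, map_add, mul_add]
  · intro a b ha hb
    rw [add_mul, map_add, ha, hb, map_add, add_mul]

/-- The operator `c ^ i` on the degree `i`. -/
noncomputable def sc (c : W.K) (Y : 𝒱.Obj) : W.H Y →ₐ[W.K] W.H Y :=
  AlgHom.ofLinearMap (scal (W.isInternal Y) (fun i => c ^ i)) (by
    rw [scal_apply _ _ (W.one_mem Y), pow_zero, one_smul]) (sc_mul c)

lemma sc_gr (c : W.K) {i : ℕ} {x : W.H Y} (hx : x ∈ W.gr Y i) : sc c Y x = c ^ i • x :=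
  scal_apply _ _ hx

/-- The operator `F` multiplied by `c ^ i` on the degree `i`. -/
noncomputable def nf (c : W.K) (F : W.H Y →ₐ[W.K] W.H Y) : W.H Y →ₐ[W.K] W.H Y :=
  F.comp (sc c Y)

lemma nf_gr (c : W.K) (F : W.H Y →ₐ[W.K] W.H Y) {i : ℕ} {x : W.H Y} (hx : x ∈ W.gr Y i) :
    nf c F x = c ^ i • F x := by
  have h : nf c F x = F (sc c Y x) := rfl
  rw [h, sc_gr c hx, map_smul]

lemma nf_iter (c : W.K) (F : W.H Y →ₐ[W.K] W.H Y) (hF : ∀ i, ∀ x ∈ W.gr Y i, F x ∈ W.gr Y i)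
    {i : ℕ} {x : W.H Y} (hx : x ∈ W.gr Y i) (m : ℕ) :
    (nf c F)^[m] x = c ^ (i * m) • F^[m] x ∧ F^[m] x ∈ W.gr Y i := by
  induction m with
  | zero => exact ⟨by rw [mul_zero, pow_zero, one_smul]; rfl, hx⟩
  | succ m ih =>
    rw [Function.iterate_succ_apply', Function.iterate_succ_apply', ih.1, map_smul,
      nf_gr c F ih.2, smul_smul]
    refine ⟨?_, hF i _ ih.2⟩
    rw [← pow_add]
    congr 2

lemma nf_tr (c t : W.K) (F : W.H Y →ₐ[W.K] W.H Y) (hF : ∀ i, ∀ x ∈ W.gr Y i, F x ∈ W.gr Y i)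
    (ht : ∀ x, W.tr Y (F x) = t * W.tr Y x) (hc : c ^ (2 * Y.dim) * t = 1) (x : W.H Y) :
    W.tr Y (nf c F x) = W.tr Y x := by
  refine gr_induction (W.isInternal Y) (p := fun x => W.tr Y (nf c F x) = W.tr Y x) ?_ ?_ x
  · intro i x hx
    rw [nf_gr c F hx, map_smul, smul_eq_mul]
    by_cases hi : i = 2 * Y.dim
    · rw [ht, hi, ← mul_assoc, hc, one_mul]
    · rw [W.tr_eq_zero hx hi, W.tr_eq_zero (hF i x hx) hi, mul_zero]
  · intro a b ha hb
    rw [map_add, map_add, ha, hb, map_add]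

lemma nf_map (c : W.K) (f : Z ⟶ Y) (F : W.H Y →ₐ[W.K] W.H Y) (G : W.H Z →ₐ[W.K] W.H Z)
    (h : ∀ x, G (W.map f x) = W.map f (F x)) (x : W.H Y) :
    nf c G (W.map f x) = W.map f (nf c F x) := by
  refine gr_induction (W.isInternal Y)
    (p := fun x => nf c G (W.map f x) = W.map f (nf c F x)) ?_ ?_ x
  · intro i x hx
    rw [nf_gr c F hx, nf_gr c G (W.map_mem f hx), h, map_smul]
  · intro a b ha hb
    rw [map_add, map_add, ha, hb, map_add, map_add]

end Gen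

section Hodge

variable {k : Type u} [Field k] {𝒱 : VarClass k} {ops : CycleOps 𝒱} {T : HodgeTheory ops}
  {X : 𝒱.Obj} {ψ : LinearMap.BilinForm T.W.K (T.W.H X)} {d : ℕ}

/-- The form as a bilinear map on the cohomology with complex coefficients. -/
noncomputable def fb (ψ : LinearMap.BilinForm T.W.K (T.W.H X)) :
    (CW T).H X →ₗ[(CW T).K] (CW T).H X →ₗ[(CW T).K] (CW T).K :=
  (ψ.baseChange ℂ : LinearMap.BilinForm ℂ (TensorProduct T.W.K ℂ (T.W.H X)))

lemma fb_apply (x y : (CW T).H X) : fb ψ x y = ψ.baseChange ℂ x y := rfl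

/-- The form vanishes on classes of different degrees. -/
lemma form_ne (h : IsPHS (tauT T) (Fx T X) ψ d) {i j : ℕ} (hij : i ≠ j) {x y : (CW T).H X}
    (hx : x ∈ (CW T).gr X i) (hy : y ∈ (CW T).gr X j) : fb ψ x y = 0 := by
  refine Submodule.iSup_induction
    (fun r : {r : ℤ × ℤ // r.1 + r.2 = (i : ℤ)} => T.pq X r.1.1 r.1.2)
    (motive := fun x => fb ψ x y = 0) (gr_le_iSup hx) ?_ ?_ ?_
  · rintro ⟨⟨p, q⟩, hr⟩ x hx
    refine Submodule.iSup_induction
      (fun r : {r : ℤ × ℤ // r.1 + r.2 = (j : ℤ)} => T.pq X r.1.1 r.1.2)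
      (motive := fun y => fb ψ x y = 0) (gr_le_iSup hy) ?_ ?_ ?_
    · rintro ⟨⟨r, s⟩, hr'⟩ y hy
      refine h.orth p q r s x hx y hy ?_
      by_contra hc
      push Not at hc
      obtain ⟨h1, h2⟩ := hc
      have h3 : p + q = (i : ℤ) := hr
      have h4 : r + s = (j : ℤ) := hr'
      apply hij
      have h5 : (i : ℤ) = j := by rw [← h3, ← h4, h1, h2, add_comm]
      exact_mod_cast h5
    · exact map_zero _
    · intro y z hy hz
      rw [map_add, hy, hz, add_zero]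
  · rw [map_zero]; rfl
  · intro x z hx hz
    rw [map_add, LinearMap.add_apply, hx, hz, add_zero]

lemma form_nf (h : IsPHS (tauT T) (Fx T X) ψ d) (c : (CW T).K) (q : ℂ)
    (F : (CW T).H X →ₐ[(CW T).K] (CW T).H X)
    (hf : ∀ i, ∀ x ∈ (CW T).gr X i, ∀ y : (CW T).H X, fb ψ (F x) (F y) = cc T (q ^ i) * fb ψ x y)
    (hc : ∀ i : ℕ, c ^ i * (c ^ i * cc T (q ^ i)) = 1) (x y : (CW T).H X) :
    fb ψ (nf c F x) (nf c F y) = fb ψ x y := by
  refine gr_induction ((CW T).isInternal X)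
    (p := fun x => fb ψ (nf c F x) (nf c F y) = fb ψ x y) ?_ ?_ x
  · intro i x hx
    refine gr_induction ((CW T).isInternal X)
      (p := fun y => fb ψ (nf c F x) (nf c F y) = fb ψ x y) ?_ ?_ y
    · intro j y hy
      rw [nf_gr c F hx, nf_gr c F hy, map_smul, map_smul, LinearMap.smul_apply, smul_eq_mul,
        smul_eq_mul, hf i x hx]
      by_cases hij : i = j
      · subst hij
        linear_combination (fb ψ x y) * hc i
      · rw [form_ne h hij hx hy, mul_zero, mul_zero, mul_zero]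
    · intro a b ha hb
      rw [map_add, map_add, ha, hb, map_add]
  · intro a b ha hb
    rw [map_add, map_add, LinearMap.add_apply, ha, hb, map_add, LinearMap.add_apply]

end Hodge

/-- **Task NS.** -/
theorem ns : S_NS.{u} := by
  intro k _ 𝒱 ops T X ψ d q Φ S hP hΦ
  have hq := hΦ.q_pos
  obtain ⟨r, hr⟩ : ∃ r : ℂ, r = ((Real.sqrt q : ℝ) : ℂ) := ⟨_, rfl⟩
  have hrq : r * r = (q : ℂ) := by
    rw [hr, ← Complex.ofReal_mul, Real.mul_self_sqrt hq.le]
  have hr0 : r ≠ 0 := by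
    rw [hr]
    exact_mod_cast (Real.sqrt_pos.2 hq).ne'
  rw [← hr]
  have hmul : ∀ a b : ℂ, cc T a * cc T b = cc T (a * b) := fun _ _ => rfl
  have hpow : ∀ (a : ℂ) (i : ℕ), cc T a ^ i = cc T (a ^ i) := fun _ _ => rfl
  have h1 : (1 : (CW T).K) = cc T 1 := rfl
  have e2 : ∀ i : ℕ, r⁻¹ ^ (2 * i) * (q : ℂ) ^ i = 1 := by
    intro i
    rw [← hrq, pow_mul, ← mul_pow]
    have : r⁻¹ ^ 2 * (r * r) = 1 := by field_simp
    rw [this, one_pow]
  refine ⟨fun n => nf (cc T r⁻¹) (Φ n), ?_, ?_, ?_, ?_, ?_, ?_, ?_⟩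
  · intro n i x hx
    rw [nf_gr _ _ hx]
    refine ⟨?_, Submodule.smul_mem _ _ (hΦ.gr n i x hx)⟩
    rw [smul_smul, hpow, hmul, ← mul_pow, mul_inv_cancel₀ hr0, one_pow, ← h1, one_smul]
  · intro n m f hf x
    exact nf_map _ f (Φ n) (Φ m) (hΦ.map n m f hf) x
  · intro x
    refine nf_tr (W := CW T) (Y := X) (cc T r⁻¹) (cc T ((q : ℂ) ^ X.dim)) (Φ 0) (hΦ.gr 0) hΦ.tr ?_ x
    rw [hpow, hmul, e2]
    rfl
  · intro x y
    refine form_nf hP (cc T r⁻¹) (q : ℂ) (Φ 0) (fun i x hx y => hΦ.form i x hx y) ?_ x y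
    intro i
    rw [hpow, hmul, hmul, ← mul_assoc, ← pow_add, ← two_mul, e2]
    rfl
  · intro n j c hc
    obtain ⟨c', hc', h⟩ := hΦ.conj n j c hc
    refine ⟨c', hc', ?_⟩
    have hg : em T.W ℂ c ∈ (CW T).gr (pw X n) (2 * j) := em_gr (hΦ.hodge n j c hc).1
    refine (nf_gr _ _ hg).trans ?_
    rw [h, smul_smul, hpow, hmul, e2, ← h1, one_smul]
  · intro n j c hc
    obtain ⟨m, hm, h⟩ := hΦ.fix n j c hc
    refine ⟨m, hm, ?_⟩
    have hg : em T.W ℂ c ∈ (CW T).gr (pw X n) (2 * j) := em_gr (hΦ.hodge n j c hc).1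
    refine (nf_iter _ _ (hΦ.gr n) hg m).1.trans ?_
    rw [h, smul_smul, hpow, hmul, mul_assoc, e2, ← h1, one_smul]
  · obtain ⟨κ, hκ, b, dg, lam, hb⟩ := hΦ.eig
    refine ⟨κ, hκ, b, fun i => r⁻¹ ^ dg i * lam i, fun i => ?_⟩
    obtain ⟨b1, b2, b3⟩ := hb i
    constructor
    · refine (nf_gr (W := CW T) (Y := X) _ _ b1).trans ?_
      refine (congrArg (fun z : (CW T).H X => cc T r⁻¹ ^ dg i • z) b2).trans ?_
      show cc T r⁻¹ ^ dg i • cc T (lam i) • b i = cc T (r⁻¹ ^ dg i * lam i) • b i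
      rw [smul_smul, hpow, hmul]
    · have h2 : ‖r‖ = Real.sqrt q := by
        rw [hr, Complex.norm_real, Real.norm_of_nonneg (Real.sqrt_nonneg q)]
      have h3 : ‖lam i‖ = Real.sqrt q ^ dg i := by
        have h4 : ‖lam i‖ ^ 2 = (Real.sqrt q ^ dg i) ^ 2 := by
          rw [b3, ← pow_mul, mul_comm, pow_mul, Real.sq_sqrt hq.le]
        exact (pow_left_inj₀ (norm_nonneg _) (by positivity) two_ne_zero).1 h4
      have h5 : 0 < Real.sqrt q := Real.sqrt_pos.2 hq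
      rw [norm_mul, norm_pow, norm_inv, h2, h3, ← mul_pow, inv_mul_cancel₀ h5.ne', one_pow]

end Pool.Agent.N222.HR
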